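import Pool.Agent.Lib.SmA.Box

/-!
SMITH at odd primes (SmL), block A (combinatorics): the box norm inequality for complex valued
functions. `cj n` is the `n`-th power of the complex conjugation.
-/

set_option autoImplicit false

open Finset Pool.Agent.SmA

namespace Pool.Agent.SmL

/-- The `n`-th power of the complex conjugation. -/
noncomputable def cj (n : ℕ) : ℂ →+* ℂ := (starRingEnd ℂ) ^ n

theorem cj_zero (z : ℂ) : cj 0 z = z := by
  rw [cj, pow_zero]; rfl

theorem cj_succ (n : ℕ) (z : ℂ) : cj (n + 1) z = (starRingEnd ℂ) (cj n z) := by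
  rw [cj, pow_succ']; rfl

@[simp] theorem norm_cj (n : ℕ) (z : ℂ) : ‖cj n z‖ = ‖z‖ := by
  induction n with
  | zero => rw [cj_zero]
  | succ n ih => rw [cj_succ, RCLike.norm_conj, ih]

theorem cj_ofReal (n : ℕ) (r : ℝ) : cj n (r : ℂ) = r := by
  induction n with
  | zero => rw [cj_zero]
  | succ n ih => rw [cj_succ, ih, Complex.conj_ofReal]

variable {ι : Type*} [Fintype ι] [DecidableEq ι] {X : ι → Type*} [∀ i, Fintype (X i)]

omit [Fintype ι] [∀ i, Fintype (X i)] in
/-- `g` is bounded by one and does not depend on coordinate `j` -/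
def Misses (j : ι) (g : (∀ i, X i) → ℂ) : Prop :=
  (∀ x, ‖g x‖ ≤ 1) ∧ ∀ x z, g (Function.update x j z) = g x

/-- averaging over one coordinate -/
theorem sum_update (i : ι) (F : (∀ i, X i) → ℂ) :
    ∑ a, ∑ z : X i, F (Function.update a i z) = Fintype.card (X i) * ∑ a, F a := by
  classical
  have h1 : ∑ a, ∑ z : X i, F (Function.update a i z) =
      ∑ p : (∀ i, X i) × X i, F (Function.update p.1 i p.2) := by
    rw [Fintype.sum_prod_type]
  have h2 : (Fintype.card (X i) : ℂ) * ∑ a, F a = ∑ p : (∀ i, X i) × X i, F p.1 := by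
    rw [Fintype.sum_prod_type]
    simp only [sum_const, card_univ, nsmul_eq_mul]
    rw [mul_sum]
  rw [h1, h2]
  refine Fintype.sum_equiv
    { toFun := fun p => (Function.update p.1 i p.2, p.1 i)
      invFun := fun p => (Function.update p.1 i p.2, p.1 i)
      left_inv := ?_
      right_inv := ?_ } _ _ (fun p => rfl)
  · intro p
    simp
  · intro p
    simp

/-- the intermediate averages -/
private noncomputable def Phi (f : (∀ i, X i) → ℂ) (g : ι → (∀ i, X i) → ℂ) (U : Finset ι) : ℂ :=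
  ∑ a : ∀ i, X i, ∑ b : ∀ i, X i, ∏ V ∈ U.powerset,
    cj #V (f (mix V a b) * ∏ j ∈ univ \ U, g j (mix V a b))

private theorem step (f : (∀ i, X i) → ℂ) (g : ι → (∀ i, X i) → ℂ)
    (hg : ∀ j, Misses j (g j)) (U : Finset ι) (i : ι) (hi : i ∉ U) :
    ‖Phi f g U‖ ^ 2 ≤ (Fintype.card (∀ i, X i) : ℝ) ^ 2 * ‖Phi f g (insert i U)‖ := by
  classical
  rcases isEmpty_or_nonempty (X i) with he | hne
  · have hE : IsEmpty (∀ i, X i) := ⟨fun x => he.elim (x i)⟩
    have h0 : ∀ U, Phi f g U = 0 := by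
      intro U
      unfold Phi
      rw [Finset.univ_eq_empty, Finset.sum_empty]
    rw [h0, h0]
    simp
  set c : ℝ := (Fintype.card (X i) : ℝ) with hc
  set N : ℝ := (Fintype.card (∀ i, X i) : ℝ) with hN
  have hcpos : 0 < c := by
    rw [hc]
    exact_mod_cast Fintype.card_pos
  set φ : (∀ i, X i) → ℂ := fun x => f x * ∏ j ∈ univ \ insert i U, g j x with hφ
  set G : (∀ i, X i) → (∀ i, X i) → ℂ := fun a b =>
    ∏ V ∈ U.powerset, cj #V (g i (mix V a b)) with hG
  set H : (∀ i, X i) → (∀ i, X i) → ℂ := fun a b =>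
    ∏ V ∈ U.powerset, cj #V (φ (mix V a b)) with hH
  have hV : ∀ V ∈ U.powerset, i ∉ V := fun V hV h => hi (mem_powerset.1 hV h)
  have hmix : ∀ V ∈ U.powerset, ∀ (a b : ∀ i, X i) (z : X i),
      mix V (Function.update a i z) b = Function.update (mix V a b) i z := by
    intro V hV' a b z
    have h1 := mix_update_notMem (hV V hV') a b z (b i)
    rwa [Function.update_eq_self] at h1
  have hPhi : Phi f g U = ∑ a, ∑ b, G a b * H a b := by
    unfold Phi
    refine sum_congr rfl fun a _ => sum_congr rfl fun b _ => ?_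
    rw [hG, hH]
    simp only
    rw [← prod_mul_distrib]
    refine prod_congr rfl fun V _ => ?_
    have h1 : univ \ U = insert i (univ \ insert i U) := by
      ext j
      by_cases hj : j = i
      · subst hj
        simp [hi]
      · simp [hj]
    rw [h1, prod_insert (by simp)]
    rw [hφ, ← map_mul]
    congr 1
    ring
  have hGz : ∀ a b z, G (Function.update a i z) b = G a b := by
    intro a b z
    refine prod_congr rfl fun V hV' => ?_
    rw [hmix V hV', (hg i).2]
  set K : (∀ i, X i) → (∀ i, X i) → ℂ := fun a b => ∑ z, H (Function.update a i z) b with hK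
  have h1 : (c : ℂ) * Phi f g U = ∑ p : (∀ i, X i) × (∀ i, X i), G p.1 p.2 * K p.1 p.2 := by
    rw [hPhi, Fintype.sum_prod_type, sum_comm, mul_sum, sum_comm (s := univ) (t := univ)]
    refine sum_congr rfl fun b _ => ?_
    have e := sum_update i (fun a => G a b * H a b)
    rw [hc, Complex.ofReal_natCast, ← e]
    refine sum_congr rfl fun a _ => ?_
    rw [hK]
    simp only
    rw [mul_sum]
    exact sum_congr rfl fun z _ => by rw [hGz]
  have h2 : (c * ‖Phi f g U‖) ^ 2 ≤ N ^ 2 * ∑ a, ∑ b, ‖K a b‖ ^ 2 := by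
    have e1 : c * ‖Phi f g U‖ = ‖∑ p : (∀ i, X i) × (∀ i, X i), G p.1 p.2 * K p.1 p.2‖ := by
      rw [← h1, norm_mul, Complex.norm_real, Real.norm_of_nonneg hcpos.le]
    have e2 : c * ‖Phi f g U‖ ≤ ∑ p : (∀ i, X i) × (∀ i, X i), ‖G p.1 p.2‖ * ‖K p.1 p.2‖ := by
      rw [e1]
      refine (norm_sum_le _ _).trans (le_of_eq ?_)
      exact sum_congr rfl fun p _ => norm_mul _ _
    have e3 : (c * ‖Phi f g U‖) ^ 2 ≤
        (∑ p : (∀ i, X i) × (∀ i, X i), ‖G p.1 p.2‖ * ‖K p.1 p.2‖) ^ 2 :=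
      pow_le_pow_left₀ (by positivity) e2 2
    refine e3.trans ((sum_mul_sq_le_sq_mul_sq _ _ _).trans ?_)
    rw [← Fintype.sum_prod_type (f := fun p : (∀ i, X i) × (∀ i, X i) => ‖K p.1 p.2‖ ^ 2)]
    refine mul_le_mul_of_nonneg_right ?_ (sum_nonneg fun p _ => sq_nonneg _)
    have h3 : ∀ p ∈ (univ : Finset ((∀ i, X i) × (∀ i, X i))), ‖G p.1 p.2‖ ^ 2 ≤ 1 := by
      intro p _
      have : ‖G p.1 p.2‖ ≤ 1 := by
        rw [hG]
        simp only
        rw [norm_prod]
        exact prod_le_one (fun _ _ => norm_nonneg _) (fun V _ => by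
          rw [norm_cj]; exact (hg i).1 _)
      exact pow_le_one₀ (norm_nonneg _) this
    refine (sum_le_sum h3).trans ?_
    rw [sum_const, card_univ, Fintype.card_prod, nsmul_eq_mul, mul_one, hN]
    push_cast
    exact le_of_eq (by ring)
  have h4 : ((∑ a, ∑ b, ‖K a b‖ ^ 2 : ℝ) : ℂ) = (c : ℂ) ^ 2 * Phi f g (insert i U) := by
    set H' : (∀ i, X i) → (∀ i, X i) → ℂ := fun a b =>
      ∏ V ∈ (insert i U).powerset, cj #V (φ (mix V a b)) with hH'
    have h5 : ∀ a b z w, H' (Function.update a i z) (Function.update b i w) =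
        H (Function.update a i z) b * (starRingEnd ℂ) (H (Function.update a i w) b) := by
      intro a b z w
      rw [hH', hH]
      simp only
      rw [prod_powerset_insert hi]
      congr 1
      · refine prod_congr rfl fun V hV' => ?_
        rw [mix_update_notMem (hV V hV'), hmix V hV']
      · rw [map_prod]
        refine prod_congr rfl fun V hV' => ?_
        rw [mix_update_insert, hmix V hV', card_insert_of_notMem (hV V hV'), cj_succ]
    have h6 : Phi f g (insert i U) = ∑ a, ∑ b, H' a b := rfl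
    have h7 : (c : ℂ) ^ 2 * ∑ a, ∑ b, H' a b = ∑ a, ∑ z, ∑ b, ∑ w,
        H' (Function.update a i z) (Function.update b i w) := by
      have h8 : ∀ a z, ∑ b, ∑ w, H' (Function.update a i z) (Function.update b i w) =
          (Fintype.card (X i) : ℂ) * ∑ b, H' (Function.update a i z) b := fun a z =>
        sum_update i (fun b => H' (Function.update a i z) b)
      simp only [h8]
      rw [sum_update i (fun a => (Fintype.card (X i) : ℂ) * ∑ b, H' a b), ← mul_sum, hc,
        Complex.ofReal_natCast]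
      ring
    rw [h6, h7]
    push_cast
    refine sum_congr rfl fun a _ => ?_
    rw [sum_comm (s := univ) (t := univ)]
    refine sum_congr rfl fun b _ => ?_
    have e4 : ((‖K a b‖ : ℂ)) ^ 2 = K a b * (starRingEnd ℂ) (K a b) := by
      rw [Complex.mul_conj, Complex.normSq_eq_norm_sq]
      push_cast
      rfl
    rw [e4, hK, map_sum, sum_mul_sum]
    exact sum_congr rfl fun z _ => sum_congr rfl fun w _ => (h5 a b z w).symm
  have h4' : ∑ a, ∑ b, ‖K a b‖ ^ 2 = c ^ 2 * ‖Phi f g (insert i U)‖ := by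
    have e5 := congrArg (fun z : ℂ => ‖z‖) h4
    rw [Complex.norm_real, Real.norm_of_nonneg
      (sum_nonneg fun _ _ => sum_nonneg fun _ _ => sq_nonneg _), norm_mul, norm_pow,
      Complex.norm_real, Real.norm_of_nonneg hcpos.le] at e5
    exact e5
  rw [h4'] at h2
  have h9 : c ^ 2 * ‖Phi f g U‖ ^ 2 ≤ c ^ 2 * (N ^ 2 * ‖Phi f g (insert i U)‖) := by
    calc c ^ 2 * ‖Phi f g U‖ ^ 2 = (c * ‖Phi f g U‖) ^ 2 := by ring
      _ ≤ _ := h2
      _ = _ := by ring
  exact le_of_mul_le_mul_left h9 (by positivity)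

private theorem chain (f : (∀ i, X i) → ℂ) (g : ι → (∀ i, X i) → ℂ)
    (hg : ∀ j, Misses j (g j)) (hN : 0 < (Fintype.card (∀ i, X i) : ℝ)) (U : Finset ι) :
    ‖Phi f g ∅‖ ^ (2 ^ #U) * (Fintype.card (∀ i, X i) : ℝ) ^ 2 ≤
        (Fintype.card (∀ i, X i) : ℝ) ^ (2 * 2 ^ #U) * ‖Phi f g U‖ := by
  set N : ℝ := (Fintype.card (∀ i, X i) : ℝ) with hNdef
  induction U using Finset.induction_on with
  | empty =>
    simp only [card_empty, pow_zero, pow_one, mul_one]
    exact le_of_eq (mul_comm _ _)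
  | insert i U hi ih =>
    have h1 := step f g hg U i hi
    rw [← hNdef] at h1
    rw [card_insert_of_notMem hi]
    have h3 : (‖Phi f g ∅‖ ^ (2 ^ #U) * N ^ 2) ^ 2 ≤ (N ^ (2 * 2 ^ #U) * ‖Phi f g U‖) ^ 2 :=
      pow_le_pow_left₀ (by positivity) ih 2
    have h4 : (N ^ (2 * 2 ^ #U) * ‖Phi f g U‖) ^ 2 ≤
        N ^ (2 * 2 ^ (#U + 1)) * (N ^ 2 * ‖Phi f g (insert i U)‖) := by
      rw [mul_pow, ← pow_mul]
      have e1 : 2 * 2 ^ #U * 2 = 2 * 2 ^ (#U + 1) := by ring
      rw [e1]
      exact mul_le_mul_of_nonneg_left h1 (by positivity)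
    have h5 := h3.trans h4
    have h6 : N ^ 2 * (‖Phi f g ∅‖ ^ (2 ^ (#U + 1)) * N ^ 2) ≤
        N ^ 2 * (N ^ (2 * 2 ^ (#U + 1)) * ‖Phi f g (insert i U)‖) := by
      calc N ^ 2 * (‖Phi f g ∅‖ ^ (2 ^ (#U + 1)) * N ^ 2)
          = (‖Phi f g ∅‖ ^ (2 ^ #U) * N ^ 2) ^ 2 := by
            rw [pow_succ 2 #U, pow_mul]
            ring
        _ ≤ _ := h5
        _ = _ := by ring
    exact le_of_mul_le_mul_left h6 (by positivity)

/-- The box norm inequality for complex valued functions. -/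
theorem box_norm (f : (∀ i, X i) → ℂ) (g : ι → (∀ i, X i) → ℂ) (hg : ∀ j, Misses j (g j)) :
    (Fintype.card (∀ i, X i) : ℝ) ^ 2 * ‖∑ x, f x * ∏ j, g j x‖ ^ (2 ^ Fintype.card ι) ≤
      (Fintype.card (∀ i, X i) : ℝ) ^ (2 ^ Fintype.card ι) *
        ‖∑ a : ∀ i, X i, ∑ b : ∀ i, X i, ∏ V : Finset ι, cj #V (f (mix V a b))‖ := by
  classical
  rcases isEmpty_or_nonempty (∀ i, X i) with he | hne
  · have h0 : (Fintype.card (∀ i, X i) : ℝ) = 0 := by
      rw [Fintype.card_eq_zero, Nat.cast_zero]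
    rw [h0, zero_pow two_ne_zero, zero_mul, zero_pow (by positivity), zero_mul]
  have hN : 0 < (Fintype.card (∀ i, X i) : ℝ) := by exact_mod_cast Fintype.card_pos
  have h1 := chain f g hg hN univ
  set N : ℝ := (Fintype.card (∀ i, X i) : ℝ) with hNdef
  have h2 : Phi f g ∅ = N * ∑ x, f x * ∏ j, g j x := by
    unfold Phi
    simp only [powerset_empty, prod_singleton, mix_empty, sdiff_empty, sum_const, card_univ,
      nsmul_eq_mul, card_empty, cj_zero]
    rw [mul_sum, hNdef, Complex.ofReal_natCast]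
  have h3 : Phi f g univ = ∑ a : ∀ i, X i, ∑ b : ∀ i, X i,
      ∏ V : Finset ι, cj #V (f (mix V a b)) := by
    unfold Phi
    simp only [powerset_univ, sdiff_self, bot_eq_empty, prod_empty, mul_one]
  rw [h2, h3, card_univ, norm_mul, Complex.norm_real, Real.norm_of_nonneg hN.le] at h1
  have h4 : N ^ (2 ^ Fintype.card ι) *
      (N ^ 2 * ‖∑ x, f x * ∏ j, g j x‖ ^ (2 ^ Fintype.card ι)) ≤
      N ^ (2 ^ Fintype.card ι) * (N ^ (2 ^ Fintype.card ι) *
        ‖∑ a : ∀ i, X i, ∑ b : ∀ i, X i, ∏ V : Finset ι, cj #V (f (mix V a b))‖) := by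
    calc N ^ (2 ^ Fintype.card ι) *
      (N ^ 2 * ‖∑ x, f x * ∏ j, g j x‖ ^ (2 ^ Fintype.card ι))
        = (N * ‖∑ x, f x * ∏ j, g j x‖) ^ (2 ^ Fintype.card ι) * N ^ 2 := by
          rw [mul_pow]
          ring
      _ ≤ _ := h1
      _ = _ := by
          rw [mul_comm 2, pow_mul]
          ring
  exact le_of_mul_le_mul_left h4 (by positivity)

end Pool.Agent.SmL
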